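import Pool.Agent.H310.HD.Alt

/-!
# Equivalents of alternative (A)

Let `δ` be an extendible cardinal. Alternative (A) (every singular cardinal `γ > δ` is singular in
`HOD` and `(γ⁺)^HOD = γ⁺`) is equivalent to each of the following:
* every singular cardinal `γ > δ` of cofinality `ω` is singular in `HOD`;
* for one regular `l ≥ δ` the regular cardinals of `HOD` are bounded below `l`;
* for one regular `l ≥ δ` stationary many `α < l` of cofinality `ω` are singular in `HOD`; also: for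
  unboundedly many regular `l < δ`;
* there are arbitrarily long sequences in `HOD` of pairwise disjoint stationary subsets of regular
  cardinals, whose elements have cofinality at most `μ`, for some `μ < δ`;
* every `κ > δ` which is regular in `HOD` has cofinality `|κ|`;
* limit ordinals of cofinality less than `δ` have cofinality less than `δ` in `HOD`;
* for all regular `l > δ` and `0 < k ≤ l` there is in `HOD` a partition of `cof(ω) ∩ l` into `k`
  stationary sets;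
* the HOD Hypothesis.
-/

set_option autoImplicit false

namespace Pool.Agent.Results.MP_e37c09_lc.AlternativeA

open Pool.Agent.H310.HD Gss969 ZFSet

universe u

/-- Alternative (A): for every singular cardinal `γ > δ` no ordinal `α` with `γ ≤ α < γ⁺` is a
regular cardinal of `HOD`. -/
def AltA (δ : Ordinal.{u}) : Prop :=
  ∀ γ > δ, IsSing (Ordinal.toZFSet γ) → ∀ l : Ordinal.{u}, IsSuccCard γ.toZFSet l.toZFSet →
    ∀ α, γ ≤ α → α < l → ¬ HODReg α

/-- Every singular cardinal `γ > δ` of cofinality `ω` is singular in `HOD`. -/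
def SingOm (δ : Ordinal.{u}) : Prop :=
  ∀ γ > δ, IsSing (Ordinal.toZFSet γ) → CofOm γ.toZFSet → CofinalP HOD γ.toZFSet

/-- `l` is regular and the ordinals below `l` which are regular in `HOD` are bounded in `l`. -/
def FewReg (l : Ordinal.{u}) : Prop :=
  RegUnc l.toZFSet ∧ ∃ m < l, ∀ α < l, m < α → ¬ HODReg α

/-- `l` is regular and stationary many `α < l` of cofinality `ω` are singular in `HOD`. -/
def ManySing (l : Ordinal.{u}) : Prop :=
  RegUnc l.toZFSet ∧ StatL {α | CofOm α.toZFSet ∧ CofinalP HOD α.toZFSet} l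

/-- For arbitrarily large `k` there are `μ < δ`, a regular cardinal `l` and a sequence of length `k`
in `HOD` of pairwise disjoint stationary subsets of `l`, all of whose elements `a` have a cofinal
function from `μ`. -/
def Families (δ : Ordinal.{u}) : Prop :=
  ∀ k₀ : Ordinal.{u}, ∃ k ≥ k₀, ∃ μ < δ, ∃ l : Ordinal.{u}, RegUnc l.toZFSet ∧
    ∃ S, HOD S ∧ Fam μ.toZFSet (Ordinal.toZFSet k) l.toZFSet S

/-- Every `κ > δ` which is regular in `HOD` has cofinality at least `|κ|`. -/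
def BigCof (δ : Ordinal.{u}) : Prop :=
  ∀ κ > δ, HODReg κ → ∀ ν : Ordinal.{u}, CofN ν.toZFSet κ.toZFSet → κ.card ≤ ν.card

/-- Whenever there is a cofinal function from some `μ < δ` to `α`, there is one in `HOD` from some
`c < δ` to `α`. -/
def Covers (δ : Ordinal.{u}) : Prop :=
  ∀ α : Ordinal.{u}, ∀ μ < δ, CofN (Ordinal.toZFSet μ) α.toZFSet →
    ∃ c < δ, ∃ g, HOD g ∧ Cofi (Ordinal.toZFSet c) α.toZFSet g

/-- For all regular `l > δ` and `0 < k ≤ l` there is a partition of `cof(ω) ∩ l` into `k` stationary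
sets in `HOD`. -/
def Partitions (δ : Ordinal.{u}) : Prop :=
  ∀ l > δ, RegUnc (Ordinal.toZFSet l) → ∀ k : Ordinal.{u}, 0 < k → k ≤ l →
    ∃ g, HOD g ∧ IsPart k.toZFSet l.toZFSet g

/-- The HOD Hypothesis. -/
def HODHypothesis (b : Bool) : Prop := ∀ β : Ordinal.{u}, ∃ l > β, NotStrMeas b l

theorem result (b : Bool) (δ : Ordinal.{u}) (hδ : Extendible δ) :
    List.TFAE [AltA δ, SingOm δ, ∃ l ≥ δ, FewReg l, ∃ l ≥ δ, ManySing l,
      ∀ β < δ, ∃ l, β < l ∧ l < δ ∧ ManySing l, Families δ, BigCof δ, Covers δ, Partitions δ,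
      HODHypothesis.{u} b] := by
  have hup : ∀ l ≥ δ, NotStrMeas b l → HODHypothesis.{u} b := by
    intro l hl hn β
    obtain ⟨l', h1, h2⟩ := hδ.above (mono_Index b) hl ((notStrMeas_iff b l).1 hn) β
    exact ⟨l', h1, (notStrMeas_iff b l').2 h2⟩
  have hman : ∀ l : Ordinal.{u}, ManySing l ↔ ManyP HOD l.toZFSet := fun l => manyP_iff.symm
  have h68 : Families δ → Covers δ := by
    intro h α μ hμ hα
    obtain ⟨k, hk, μ', hμ', l, hl, S, hS, hF⟩ := h α
    exact cover hδ hk hμ' hl hS hF hμ hα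
  tfae_have 1 → 2 := by
    intro h γ hγ hs hc
    have hs' := hs
    obtain ⟨hcard, hom, _⟩ := hs'
    obtain ⟨l, hl, _, hsucc⟩ := exists_succ hcard (tz_mem.1 hom)
    by_contra hcon
    exact h γ hγ hs l hsucc γ le_rfl hl ⟨hc.lim.1, hc.lim.2, hcon⟩
  tfae_have 2 → 4 := by
    intro h
    obtain ⟨l, hl, hr, hlim⟩ := hδ.exists_regLim δ
    exact ⟨l, hl.le, hr, (statL_card hr hlim hl).mono fun α _ h1 =>
      ⟨h1.2.2, h α h1.1 h1.2.1 h1.2.2⟩⟩
  tfae_have 1 → 3 := by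
    intro h
    obtain ⟨l, hl, hr, hlim⟩ := hδ.exists_regLim δ
    obtain ⟨γ, _, ⟨h1, h2, _⟩, _⟩ := statL_card hr hlim hl l.toZFSet (fun x hx => hx)
      ⟨fun x hx => hx, fun x hx => by
        obtain ⟨γ, hγ, rfl⟩ := Ordinal.mem_toZFSet_iff.1 hx
        exact ⟨_, tz_mem.2 (hr.succ_lt hγ), tz_mem.2 (Order.lt_succ γ)⟩, fun a ha _ _ => ha⟩
    have h2' := h2
    obtain ⟨hcard, hom, _⟩ := h2'
    obtain ⟨l', hl', hr', hsucc⟩ := exists_succ hcard (tz_mem.1 hom)
    exact ⟨l', (h1.trans hl').le, hr', γ, hl', fun α hα hγα => h γ h1 h2 l' hsucc α hγα.le hα⟩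
  tfae_have 3 → 4 := by
    rintro ⟨l, hl, hr, m, hm, h⟩
    refine ⟨l, hl, hr, (statL_om hr hm).mono fun α hα h1 => ⟨h1.2, ?_⟩⟩
    by_contra hcon
    exact h α hα h1.1 ⟨h1.2.lim.1, h1.2.lim.2, hcon⟩
  tfae_have 4 → 5 := by
    rintro ⟨l, hl, h⟩ β hβ
    obtain ⟨l', h1, h2, h3⟩ := hδ.reflecting.below mono_ManyP hβ (hβ.trans_le hl) ((hman l).1 h)
    exact ⟨l', h1, h2, (hman l').2 h3⟩
  tfae_have 5 → 4 := by
    intro h
    obtain ⟨l, hl, h1⟩ := hδ.of_below mono_ManyP fun β hβ => by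
      obtain ⟨l, h1, h2, h3⟩ := h β hβ
      exact ⟨l, h1, h2, (hman l).1 h3⟩
    exact ⟨l, hl.le, (hman l).2 h1⟩
  tfae_have 4 → 10 := by
    rintro ⟨l, hl, h⟩
    exact hup l hl (notStrMeas_of_sing b h.1 h.2)
  tfae_have 10 → 6 := by
    intro h k₀
    obtain ⟨k, hk, hn⟩ := h k₀
    obtain ⟨c, hc⟩ := fewSub_large HOD k
    obtain ⟨l, hl, hn'⟩ := h (max c k)
    have hkl : k < l := (le_max_right _ _).trans_lt hl
    have hix : Index b k.toZFSet := ⟨⟨om, hn.1.2.1, rfl⟩, fun _ => hn.1.isCard⟩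
    obtain ⟨g, hg, hp⟩ := ((notStrMeas_iff b l).1 hn').2 _ (tz_mem.2 hkl) hix
      (hc l ((le_max_left _ _).trans_lt hl))
    exact ⟨k, hk.le, Ordinal.omega0, hδ.om_lt, l, hn'.1, g, hg, hp.fam (isOrdinal_toZFSet _)⟩
  tfae_have 6 → 8 := h68
  tfae_have 6 → 7 := by
    intro h κ hκ hr ν hν
    obtain ⟨ν₀, h1, h2, h3⟩ := exists_cof hν
    obtain ⟨k, hk, μ, hμ, l, hl, S, hS, hF⟩ := h κ
    exact (ket hδ hk hμ hl hS hF (h68 h) hκ hr.2.1 hr.2.2 h2 h3).trans (Ordinal.card_le_card h1)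
  tfae_have 7 → 1 := by
    intro h γ hγ hs l hl α hγα hαl hα
    exact no_reg hs hγα hl hαl hα (h α (hγ.trans_le hγα) hα)
  tfae_have 8 → 9 := by
    intro h l hl hr k hk0 hk
    refine split_of_sing hr ((statL_om hr hl).mono fun α _ hα => ⟨hα.2, ?_⟩) hk0 hk
    obtain ⟨c, hc, g, hg, hf, hcof⟩ := h α Ordinal.omega0 hδ.om_lt hα.2
    exact ⟨_, tz_mem.2 (hc.trans hα.1), g, hg, hf, hcof⟩
  tfae_have 9 → 10 := by
    intro h
    obtain ⟨l, hl, hr⟩ := exists_regUnc δ
    refine hup l hl.le ⟨hr, ?_⟩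
    rintro ⟨_, k, hk, hi, _, hn⟩
    obtain ⟨k, hk', rfl⟩ := Ordinal.mem_toZFSet_iff.1 hk
    refine hn (h l hl hr k ?_ hk'.le)
    obtain ⟨⟨x, hx, _⟩, _⟩ := hi
    obtain ⟨β, hβ, _⟩ := Ordinal.mem_toZFSet_iff.1 hx
    exact bot_le.trans_lt hβ
  tfae_finish

end Pool.Agent.Results.MP_e37c09_lc.AlternativeA
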