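import Pool.Agent.H310.HD.Card

/-!
# One regular cardinal with a simple property in `HOD` decides the dichotomy

Let `δ` be an extendible cardinal and let `Q` be one of the following properties of a regular
uncountable cardinal `κ`: it is a successor cardinal in `HOD`; it is not a strong limit cardinal in
`HOD`; it is the successor of a singular cardinal `γ` which is singular in `HOD`, and
`(γ⁺)^HOD = γ⁺ = κ`. Equivalent are: some `κ ≥ δ` has the property `Q`; the `κ` with the property `Q`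
form a proper class; the `κ < δ` with the property `Q` are unbounded in `δ`.
-/

set_option autoImplicit false

namespace Pool.Agent.Results.MP_e37c09_lc.OneCardinal

open Pool.Agent.H310.HD ZFSet

universe u

/-- Equivalent are: some `κ ≥ δ` has the property `Q`; the `κ` with the property `Q` form a proper
class; the `κ < δ` with the property `Q` are unbounded in `δ`. -/
def OneForAll (Q : ZFSet.{u} → Prop) (δ : Ordinal.{u}) : Prop :=
  ((∃ κ ≥ δ, Q κ.toZFSet) ↔ ∀ β : Ordinal.{u}, ∃ κ > β, Q κ.toZFSet) ∧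
  ((∃ κ ≥ δ, Q κ.toZFSet) ↔ ∀ β < δ, ∃ κ : Ordinal.{u}, β < κ ∧ κ < δ ∧ Q κ.toZFSet)

theorem oneForAll {Q : (ZFSet.{u} → Prop) → ZFSet.{u} → Prop} (hQ : Mono Q) {δ : Ordinal.{u}}
    (hδ : Extendible δ) : OneForAll (Q HOD) δ := by
  refine ⟨⟨?_, fun h => ?_⟩, ⟨?_, fun h => ?_⟩⟩
  · rintro ⟨l, hl, h⟩ β
    exact hδ.above hQ hl h β
  · obtain ⟨l, hl, h1⟩ := h δ
    exact ⟨l, hl.le, h1⟩
  · rintro ⟨l, hl, h⟩ β hβ
    exact hδ.reflecting.below hQ hβ (hβ.trans_le hl) h
  · obtain ⟨l, hl, h1⟩ := hδ.of_below hQ h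
    exact ⟨l, hl.le, h1⟩

theorem result (δ : Ordinal.{u}) (hδ : Extendible δ) :
    OneForAll (SuccIn HOD) δ ∧ OneForAll (NotStrongLimitIn HOD) δ ∧
    OneForAll (CorrectSucc HOD) δ :=
  ⟨oneForAll mono_SuccIn hδ, oneForAll mono_NotStrongLimitIn hδ, oneForAll mono_CorrectSucc hδ⟩

end Pool.Agent.Results.MP_e37c09_lc.OneCardinal
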