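import Pool.Agent.H310.HD.Card

/-!
# The failures of (A) and of (B) are unbounded below an extendible cardinal

Let `δ` be an extendible cardinal and `β < δ`. All regular cardinals `κ > β` are measurable in `HOD`
if and only if all regular cardinals `κ` with `β < κ < δ` are. And `HOD` is correct about all
singular cardinals `γ > β` and their successors if and only if it is for the singular cardinals `γ`
with `β < γ < δ`.

So a single failure of (B) (a regular `κ ≥ δ` which is not measurable in `HOD`) gives unboundedly many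
regular `κ < δ` which are not measurable in `HOD`, and a single failure of (A) gives unboundedly many
singular `γ < δ` for which `HOD` is not correct.
-/

set_option autoImplicit false

namespace Pool.Agent.Results.MP_e37c09_lc.Thresholds

open Pool.Agent.H310.HD ZFSet

universe u

/-- `k` is a regular uncountable cardinal which is measurable in `HOD`, if it is regular. -/
def MeasHOD (k : Ordinal.{u}) : Prop := RegUnc k.toZFSet → MeasIn HOD k.toZFSet

/-- If `c` is a singular cardinal, then `c` is singular in `HOD` and `(c⁺)^HOD = c⁺`. -/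
def CorrectHOD (c : Ordinal.{u}) : Prop :=
  ∀ l : Ordinal.{u}, IsSing c.toZFSet → IsSuccCard c.toZFSet l.toZFSet →
    Correct HOD c.toZFSet l.toZFSet

theorem result (δ : Ordinal.{u}) (hδ : Extendible δ) :
    (∀ β < δ, (∀ k > β, MeasHOD k) ↔ ∀ k, β < k → k < δ → MeasHOD k) ∧
    (∀ β < δ, (∀ c > β, CorrectHOD c) ↔ ∀ c, β < c → c < δ → CorrectHOD c) ∧
    ((∃ k ≥ δ, ¬ MeasHOD k) → ∀ β < δ, ∃ k, β < k ∧ k < δ ∧ ¬ MeasHOD k) ∧
    ((∃ c ≥ δ, ¬ CorrectHOD c) → ∀ β < δ, ∃ c, β < c ∧ c < δ ∧ ¬ CorrectHOD c) := by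
  have hB : ∀ β < δ, ∀ k > β, ¬ MeasHOD k → ∃ k', β < k' ∧ k' < δ ∧ ¬ MeasHOD k' := by
    intro β hβ k hk hn
    unfold MeasHOD at hn
    push Not at hn
    obtain ⟨k', h1, h2, h3, h4⟩ := hδ.belowLoc3 loc3_notMeas hβ hk hn
    exact ⟨k', h1, h2, fun h => h4 (h h3)⟩
  have hA : ∀ β < δ, ∀ c > β, ¬ CorrectHOD c → ∃ c', β < c' ∧ c' < δ ∧ ¬ CorrectHOD c' := by
    intro β hβ c hc hn
    unfold CorrectHOD at hn
    push Not at hn
    obtain ⟨l, h1, h2, h3⟩ := hn
    have hcl : c < l := Ordinal.toZFSet_mem_toZFSet_iff.1 h2.2.1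
    obtain ⟨l', h4, h5, c', hc', hp, h6, h7, h8⟩ := hδ.belowLoc3 loc3_notCorrect hβ (hc.trans hcl)
      ⟨c.toZFSet, h2.2.1, Ordinal.toZFSet_mem_toZFSet_iff.2 hc, h1, h2, h3⟩
    obtain ⟨c1, hc1, rfl⟩ := Ordinal.mem_toZFSet_iff.1 hc'
    exact ⟨c1, Ordinal.toZFSet_mem_toZFSet_iff.1 hp, hc1.trans h5, fun h => h8 (h l' h6 h7)⟩
  refine ⟨fun β hβ => ⟨fun h k hk _ => h k hk, fun h k hk => ?_⟩,
    fun β hβ => ⟨fun h k hk _ => h k hk, fun h k hk => ?_⟩,
    fun ⟨k, hk, hn⟩ β hβ => hB β hβ k (hβ.trans_le hk) hn,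
    fun ⟨k, hk, hn⟩ β hβ => hA β hβ k (hβ.trans_le hk) hn⟩
  · by_contra hn
    obtain ⟨k', h1, h2, h3⟩ := hB β hβ k hk hn
    exact h3 (h k' h1 h2)
  · by_contra hn
    obtain ⟨k', h1, h2, h3⟩ := hA β hβ k hk hn
    exact h3 (h k' h1 h2)

end Pool.Agent.Results.MP_e37c09_lc.Thresholds
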